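import Pool.Agent.Run7.h375.Fin3

/-!
# The non-abelian Brumer conjecture for groups with sign-monomial representations
-/

set_option autoImplicit false

open NumberField IsDedekindDomain
open scoped ComplexConjugate

/-- Let `K/k` be a finite Galois CM-extension with group `G` and let `S` be a finite set of
finite primes of `k` containing those which ramify in `K`. Suppose that every irreducible complex
representation `V` of `G` is induced from a character with values `1`, `-1` of a subgroup `A`
(there is a vector `v ≠ 0` of `V` with `a v = v` or `a v = -v` for all `a` in `A`, and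
`dim V = (G : A)`), where, if the complex conjugation acts as `-1` on `V`, the order of `A` divides
`2 ^ ([F : ℚ] + s - 1)`, with `F` the fixed field of `A` and `s` the number of primes of `F`
above `S`. Then the conjecture holds for `K/k` and `S`, with the factor from `𝓗(G)` superfluous. -/
theorem Pool.Agent.Results.MP_4cd9d5_nt.SignMonomialGroups.result
    {k K : Type} [Field k] [NumberField k] [Field K] [NumberField K] [Algebra k K]
    [IsGalois k K] [IsTotallyReal k] [IsCMField K] (S : Finset (HeightOneSpectrum (𝓞 k)))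
    (hS : ∀ v, v ∉ S → Run7.h375.Defs.IsUnram K v)
    (hV : ∀ (V : Type) [AddCommGroup V] [Module ℂ V] [FiniteDimensional ℂ V]
      (ρ : Representation ℂ (K ≃ₐ[k] K) V), ρ.IsIrreducible →
      ∃ (A : Subgroup (K ≃ₐ[k] K)) (v : V), v ≠ 0 ∧ Module.finrank ℂ V = A.index ∧
        (∀ a ∈ A, ρ a v = v ∨ ρ a v = -v) ∧
        ((∀ c : K ≃ₐ[k] K, (∀ (φ : K →+* ℂ) (x : K), φ (c x) = conj (φ x)) → ρ c = -1) →
          Nat.card A ∣ 2 ^ (Module.finrank ℚ (IntermediateField.fixedField A) +
            ∑ p ∈ S, (p.asIdeal.primesOver (𝓞 (IntermediateField.fixedField A))).ncard - 1))) :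
    ∃ θ : Run7.h375.Defs.CG k K, Run7.h375.Defs.IsStick S θ ∧
      (∀ θ' : Run7.h375.Defs.CG k K, Run7.h375.Defs.IsStick S θ' → θ' = θ) ∧
      (∀ a ∈ Run7.h375.Defs.ModA K S, a * θ ∈ Run7.h375.Defs.ModI k K) ∧
      (∀ x : Run7.h375.Defs.CG k K, Run7.h375.Defs.InH x → ∀ a ∈ Run7.h375.Defs.ModA K S,
        Run7.h375.Defs.Ann (x * (a * θ)).1) ∧
      ∀ a ∈ Run7.h375.Defs.ModA K S, Run7.h375.Defs.Ann (a * θ).1 :=
  Run7.h375.Fin.main S hS hV
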